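import Pool.Agent.Helper90.ST.Core
import Pool.Agent.Helper90.ST.Higman
import Pool.Agent.Helper55.ST.GEOM

set_option autoImplicit false

/-!
The centrality conjecture: every finite thick skew translation generalized quadrangle is central.
-/

namespace Pool.Agent.Results.MP_6ecf75_co.EveryFiniteSTGQ

open Equiv

universe u v

section Defs

variable {P : Type u} {L : Type v} (I : P → L → Prop)

/-- Collinearity: some line contains both points. -/
def Coll (p q : P) : Prop := ∃ l : L, I p l ∧ I q l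

/-- Generalized quadrangle of order `(s, t)`. -/
structure IsGQ (s t : ℕ) : Prop where
  /-- every line carries `s + 1` points -/
  points : ∀ l : L, {p : P | I p l}.ncard = s + 1
  /-- every point lies on `t + 1` lines -/
  lines : ∀ p : P, {l : L | I p l}.ncard = t + 1
  /-- two points are on at most one common line -/
  unique : ∀ (p q : P) (l m : L), p ≠ q → I p l → I q l → I p m → I q m → l = m
  /-- the axiom of generalized quadrangles -/
  proj : ∀ (p : P) (l : L), ¬ I p l → ∃! q : P, I q l ∧ Coll I p q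

/-- Automorphism: a permutation of the points and a permutation of the lines which together
preserve incidence in both directions. -/
def IsAut (σ : Perm P × Perm L) : Prop := ∀ (p : P) (l : L), I (σ.1 p) (σ.2 l) ↔ I p l

/-- Symmetry about `x`: an automorphism which fixes every point collinear with `x`. -/
def IsSymmetry (x : P) (σ : Perm P × Perm L) : Prop :=
  IsAut I σ ∧ ∀ p : P, Coll I x p → σ.1 p = p

/-- `x` is a center of symmetry: some group of symmetries about `x` is transitive on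
`{v, w}^⊥ \ {x}` for all noncollinear `v, w` in `x^⊥`. -/
def IsCenter (x : P) : Prop :=
  ∃ S : Subgroup (Perm P × Perm L), (∀ σ ∈ S, IsSymmetry I x σ) ∧
    ∀ v w : P, Coll I x v → Coll I x w → ¬ Coll I v w →
      ∀ a b : P, a ≠ x → b ≠ x → Coll I a v → Coll I a w → Coll I b v → Coll I b w →
        ∃ σ ∈ S, σ.1 a = b

/-- `G` is an elation group at `x`: a group of automorphisms fixing `x` and all lines on `x`,
sharply transitive on the points not collinear with `x`. -/
structure IsElationGroup (x : P) (G : Subgroup (Perm P × Perm L)) : Prop where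
  aut : ∀ g ∈ G, IsAut I g
  fix_point : ∀ g ∈ G, g.1 x = x
  fix_lines : ∀ g ∈ G, ∀ l : L, I x l → g.2 l = l
  sharply : ∀ p q : P, ¬ Coll I x p → ¬ Coll I x q → ∃! g : Perm P × Perm L, g ∈ G ∧ g.1 p = q

/-- Skew translation generalized quadrangle of order `(s, t)`. -/
structure IsSTGQ (s t : ℕ) (x : P) (G : Subgroup (Perm P × Perm L)) : Prop where
  gq : IsGQ I s t
  elation : IsElationGroup I x G
  center : IsCenter I x
  symm_mem : ∀ σ : Perm P × Perm L, IsSymmetry I x σ → σ ∈ G

end Defs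

section Transport

variable {P : Type u} {L : Type v}

/-- the theorem for types in the lowest universe -/
private theorem result₀ (P L : Type) [Finite P] [Finite L] (I : P → L → Prop) (s t : ℕ)
    (hs : 1 < s) (ht : 1 < t) (x : P) (G : Subgroup (Perm P × Perm L)) (h : IsSTGQ I s t x G)
    (σ : Perm P × Perm L) (hσ : IsSymmetry I x σ) (g : Perm P × Perm L) (hg : g ∈ G) :
    σ * g = g * σ := by
  have := Fintype.ofFinite P
  have := Fintype.ofFinite L
  have H : Pool.Agent.Helper55.GQ.IsGQ I s t := ⟨h.gq.points, h.gq.lines, h.gq.unique, h.gq.proj⟩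
  have hσG := h.symm_mem σ hσ
  have hx : ∀ g ∈ G, g.1 x = x ∧ ∀ l : L, I x l → g.2 l = l := fun g hg =>
    ⟨h.elation.fix_point g hg, h.elation.fix_lines g hg⟩
  by_cases hst : s = t ^ 2
  · exact Pool.Agent.Helper55.GQ.main H hst ht x G h.elation.aut hx h.elation.sharply σ hσG hσ.2
      g hg
  · obtain ⟨l, hl⟩ := Pool.Agent.Helper55.GQ.exists_line H x
    have : Nonempty L := ⟨l⟩
    obtain ⟨ι, A, S, hKF, hSS⟩ := Pool.Agent.Helper90.ST.geom H hs ht x G h.elation.aut hx
      h.elation.sharply h.center (fun σ h1 h2 => h.symm_mem σ ⟨h1, h2⟩)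
    have hc := Pool.Agent.Helper90.ST.kf_central hKF hs ht
      (Pool.Agent.Helper90.ST.higman H ht) hst ⟨σ, hσG⟩ (hSS _ hσ.2) ⟨g, hg⟩
    exact congrArg Subtype.val hc

/-- transport of incidence -/
private def tr {P' : Type} {L' : Type} (eP : P ≃ P') (eL : L ≃ L') (I : P → L → Prop) :
    P' → L' → Prop := fun a b => I (eP.symm a) (eL.symm b)

/-- transport of permutations -/
private def trG {P' : Type} {L' : Type} (eP : P ≃ P') (eL : L ≃ L') :
    (Perm P × Perm L) ≃* (Perm P' × Perm L') :=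
  MulEquiv.prodCongr eP.permCongrHom eL.permCongrHom

private theorem trG_fst {P' : Type} {L' : Type} (eP : P ≃ P') (eL : L ≃ L') (σ : Perm P × Perm L)
    (a : P') : (trG eP eL σ).1 a = eP (σ.1 (eP.symm a)) := rfl

private theorem trG_snd {P' : Type} {L' : Type} (eP : P ≃ P') (eL : L ≃ L') (σ : Perm P × Perm L)
    (b : L') : (trG eP eL σ).2 b = eL (σ.2 (eL.symm b)) := rfl

private theorem coll_tr {P' : Type} {L' : Type} (eP : P ≃ P') (eL : L ≃ L') (I : P → L → Prop)
    (a b : P') : Coll (tr eP eL I) a b ↔ Coll I (eP.symm a) (eP.symm b) := by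
  constructor
  · rintro ⟨l, h1, h2⟩
    exact ⟨eL.symm l, h1, h2⟩
  · rintro ⟨l, h1, h2⟩
    exact ⟨eL l, by simpa [tr] using h1, by simpa [tr] using h2⟩

private theorem isAut_tr {P' : Type} {L' : Type} (eP : P ≃ P') (eL : L ≃ L') (I : P → L → Prop)
    (σ : Perm P × Perm L) : IsAut (tr eP eL I) (trG eP eL σ) ↔ IsAut I σ := by
  constructor
  · intro h p l
    have := h (eP p) (eL l)
    simpa [tr, trG_fst, trG_snd] using this
  · intro h p l
    have := h (eP.symm p) (eL.symm l)
    simpa [tr, trG_fst, trG_snd] using this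

private theorem isSymmetry_tr {P' : Type} {L' : Type} (eP : P ≃ P') (eL : L ≃ L')
    (I : P → L → Prop) (x : P) (σ : Perm P × Perm L) :
    IsSymmetry (tr eP eL I) (eP x) (trG eP eL σ) ↔ IsSymmetry I x σ := by
  unfold IsSymmetry
  rw [isAut_tr]
  refine and_congr_right fun _ => ⟨fun h p hp => ?_, fun h a ha => ?_⟩
  · have := h (eP p) (by rw [coll_tr]; simpa using hp)
    rw [trG_fst] at this
    simpa using this
  · rw [coll_tr, eP.symm_apply_apply] at ha
    rw [trG_fst, h _ ha, eP.apply_symm_apply]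

private theorem isGQ_tr {P' : Type} {L' : Type} (eP : P ≃ P') (eL : L ≃ L') (I : P → L → Prop)
    {s t : ℕ} (h : IsGQ I s t) : IsGQ (tr eP eL I) s t := by
  refine ⟨?_, ?_, ?_, ?_⟩
  · intro l
    rw [← h.points (eL.symm l)]
    have : {p : P' | tr eP eL I p l} = eP '' {p : P | I p (eL.symm l)} := by
      ext a
      constructor
      · intro h
        exact ⟨eP.symm a, h, by simp⟩
      · rintro ⟨p, hp, rfl⟩
        show I (eP.symm (eP p)) (eL.symm l)
        rwa [eP.symm_apply_apply]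
    rw [this, Set.ncard_image_of_injective _ eP.injective]
  · intro p
    rw [← h.lines (eP.symm p)]
    have : {l : L' | tr eP eL I p l} = eL '' {l : L | I (eP.symm p) l} := by
      ext a
      constructor
      · intro h
        exact ⟨eL.symm a, h, by simp⟩
      · rintro ⟨p', hp, rfl⟩
        show I (eP.symm p) (eL.symm (eL p'))
        rwa [eL.symm_apply_apply]
    rw [this, Set.ncard_image_of_injective _ eL.injective]
  · intro p q l m hpq h1 h2 h3 h4
    exact eL.symm.injective (h.unique _ _ _ _ (fun h => hpq (eP.symm.injective h)) h1 h2 h3 h4)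
  · intro p l hpl
    obtain ⟨q, ⟨hq1, hq2⟩, hq3⟩ := h.proj (eP.symm p) (eL.symm l) hpl
    refine ⟨eP q, ⟨by simpa [tr] using hq1, by rw [coll_tr]; simpa using hq2⟩, ?_⟩
    rintro r ⟨hr1, hr2⟩
    have := hq3 (eP.symm r) ⟨hr1, (coll_tr eP eL I p r).1 hr2⟩
    rw [← this, eP.apply_symm_apply]

private theorem mem_trG {P' : Type} {L' : Type} (eP : P ≃ P') (eL : L ≃ L')
    (G : Subgroup (Perm P × Perm L)) (σ : Perm P' × Perm L') :
    σ ∈ G.map (trG eP eL).toMonoidHom ↔ ∃ τ ∈ G, trG eP eL τ = σ := Subgroup.mem_map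

private theorem isElationGroup_tr {P' : Type} {L' : Type} (eP : P ≃ P') (eL : L ≃ L')
    (I : P → L → Prop) {x : P} {G : Subgroup (Perm P × Perm L)} (h : IsElationGroup I x G) :
    IsElationGroup (tr eP eL I) (eP x) (G.map (trG eP eL).toMonoidHom) := by
  refine ⟨?_, ?_, ?_, ?_⟩
  · intro g hg
    obtain ⟨τ, hτ, rfl⟩ := (mem_trG eP eL G g).1 hg
    exact (isAut_tr eP eL I τ).2 (h.aut τ hτ)
  · intro g hg
    obtain ⟨τ, hτ, rfl⟩ := (mem_trG eP eL G g).1 hg
    rw [trG_fst, eP.symm_apply_apply, h.fix_point τ hτ]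
  · intro g hg l hl
    obtain ⟨τ, hτ, rfl⟩ := (mem_trG eP eL G g).1 hg
    rw [trG_snd, h.fix_lines τ hτ (eL.symm l) (by simpa [tr] using hl),
      eL.apply_symm_apply]
  · intro p q hp hq
    rw [coll_tr, eP.symm_apply_apply] at hp hq
    obtain ⟨g, ⟨hg1, hg2⟩, hg3⟩ := h.sharply (eP.symm p) (eP.symm q) hp hq
    refine ⟨trG eP eL g, ⟨(mem_trG eP eL G _).2 ⟨g, hg1, rfl⟩, ?_⟩, ?_⟩
    · rw [trG_fst, hg2, eP.apply_symm_apply]
    · rintro r ⟨hr1, hr2⟩
      obtain ⟨τ, hτ, rfl⟩ := (mem_trG eP eL G r).1 hr1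
      rw [trG_fst] at hr2
      rw [hg3 τ ⟨hτ, by rw [← hr2, eP.symm_apply_apply]⟩]

private theorem isCenter_tr {P' : Type} {L' : Type} (eP : P ≃ P') (eL : L ≃ L')
    (I : P → L → Prop) {x : P} (h : IsCenter I x) : IsCenter (tr eP eL I) (eP x) := by
  obtain ⟨S, hS1, hS2⟩ := h
  refine ⟨S.map (trG eP eL).toMonoidHom, ?_, ?_⟩
  · intro σ hσ
    obtain ⟨τ, hτ, rfl⟩ := Subgroup.mem_map.1 hσ
    exact (isSymmetry_tr eP eL I x τ).2 (hS1 τ hτ)
  · intro v w hv hw hvw a b ha hb hav haw hbv hbw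
    rw [coll_tr] at hv hw hvw hav haw hbv hbw
    rw [eP.symm_apply_apply] at hv hw
    obtain ⟨σ, hσ, hab⟩ := hS2 _ _ hv hw hvw (eP.symm a) (eP.symm b)
      (fun h => ha (by rw [← h, eP.apply_symm_apply]))
      (fun h => hb (by rw [← h, eP.apply_symm_apply])) hav haw hbv hbw
    exact ⟨trG eP eL σ, Subgroup.mem_map.2 ⟨σ, hσ, rfl⟩, by
      rw [trG_fst, hab, eP.apply_symm_apply]⟩

private theorem isSTGQ_tr {P' : Type} {L' : Type} (eP : P ≃ P') (eL : L ≃ L') (I : P → L → Prop)
    {s t : ℕ} {x : P} {G : Subgroup (Perm P × Perm L)} (h : IsSTGQ I s t x G) :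
    IsSTGQ (tr eP eL I) s t (eP x) (G.map (trG eP eL).toMonoidHom) := by
  refine ⟨isGQ_tr eP eL I h.gq, isElationGroup_tr eP eL I h.elation, isCenter_tr eP eL I h.center,
    ?_⟩
  intro σ hσ
  obtain ⟨τ, rfl⟩ := (trG eP eL).surjective σ
  exact (mem_trG eP eL G _).2 ⟨τ, h.symm_mem τ ((isSymmetry_tr eP eL I x τ).1 hσ), rfl⟩

end Transport

/-- **Every finite thick skew translation generalized quadrangle is central**: every symmetry
about `x` commutes with every element of the elation group `G`. -/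
theorem result (P : Type u) (L : Type v) [Finite P] [Finite L] (I : P → L → Prop) (s t : ℕ)
    (hs : 1 < s) (ht : 1 < t) (x : P) (G : Subgroup (Perm P × Perm L)) (h : IsSTGQ I s t x G) :
    ∀ σ : Perm P × Perm L, IsSymmetry I x σ → ∀ g ∈ G, σ * g = g * σ := by
  intro σ hσ g hg
  obtain ⟨n, ⟨eP⟩⟩ := Finite.exists_equiv_fin P
  obtain ⟨m, ⟨eL⟩⟩ := Finite.exists_equiv_fin L
  have key := result₀ (Fin n) (Fin m) (tr eP eL I) s t hs ht (eP x) _ (isSTGQ_tr eP eL I h)
    (trG eP eL σ) ((isSymmetry_tr eP eL I x σ).2 hσ) (trG eP eL g)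
    (Subgroup.mem_map.2 ⟨g, hg, rfl⟩)
  rw [← map_mul, ← map_mul] at key
  exact (trG eP eL).injective key

end Pool.Agent.Results.MP_6ecf75_co.EveryFiniteSTGQ
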