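import Pool.Agent.Helper55.GQElation

set_option autoImplicit false

/-!
The centrality conjecture for skew translation quadrangles of order `(t^2, t)`.
-/

namespace Pool.Agent.Results.MP_6ecf75_co.SquareOrderCentral

/-- In every finite generalized quadrangle of order `(s,t)` with `s = t^2`, `t > 1`, with an
elation group `G` at `x`, every symmetry about `x` that lies in `G` commutes with every element
of `G`.  (It is not assumed that `x` is a center of symmetry.) -/
theorem result : ∀ (P L : Type) [Finite P] [Finite L] (I : P → L → Prop) (s t : ℕ),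
    1 < t → s = t ^ 2 →
    (∀ l : L, {p : P | I p l}.ncard = s + 1) →
    (∀ p : P, {l : L | I p l}.ncard = t + 1) →
    (∀ (p q : P) (l m : L), p ≠ q → I p l → I q l → I p m → I q m → l = m) →
    (∀ (p : P) (l : L), ¬ I p l → ∃! q : P, I q l ∧ ∃ m : L, I p m ∧ I q m) →
    ∀ (x : P) (G : Subgroup (Equiv.Perm P × Equiv.Perm L)),
    (∀ g ∈ G, ∀ (p : P) (l : L), I (g.1 p) (g.2 l) ↔ I p l) →
    (∀ g ∈ G, g.1 x = x ∧ ∀ l : L, I x l → g.2 l = l) →
    (∀ p q : P, (¬ ∃ l : L, I x l ∧ I p l) → (¬ ∃ l : L, I x l ∧ I q l) →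
      ∃! g : Equiv.Perm P × Equiv.Perm L, g ∈ G ∧ g.1 p = q) →
    ∀ σ ∈ G, (∀ p : P, (∃ l : L, I x l ∧ I p l) → σ.1 p = p) →
      ∀ g ∈ G, σ * g = g * σ := by
  intro P L hP hL I s t ht hs h1 h2 h3 h4 x G hI hx hreg σ hσ hσx g hg
  haveI := Fintype.ofFinite P
  haveI := Fintype.ofFinite L
  exact Pool.Agent.Helper55.GQ.main ⟨h1, h2, h3, h4⟩ hs ht x G hI hx hreg σ hσ hσx g hg

end Pool.Agent.Results.MP_6ecf75_co.SquareOrderCentral
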